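import Pool.Agent.Run7.h629.Glue

/-!
# Wall's finiteness obstruction of H-spaces with small cyclic fundamental group

Let `X` be an H-space (a unit up to homotopy is enough) whose fundamental group is cyclic of
order `q ^ k` or `2 * q ^ k` with `q` prime. Let `p : E → X` be a universal covering with group
of deck transformations `G`. If `P` is a bounded chain complex of finitely generated projective
`ℤ[G]`-modules chain homotopy equivalent to the singular chain complex of `E`, then
`∑ (-1)^n [P_n] = 0` in the reduced projective class group of `ℤ[G]`.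
-/

namespace Pool.Agent.Results.MP_181146_gt.CyclicPrimePower

open CategoryTheory Run7.h629

/-- `X` has a continuous product for which `e` is a two-sided unit up to homotopy. -/
def IsHSpace (X : Type) [TopologicalSpace X] (e : X) : Prop :=
  ∃ μ : C(X × X, X),
    (μ.comp ((ContinuousMap.const X e).prodMk (ContinuousMap.id X))).Homotopic
      (ContinuousMap.id X) ∧
    (μ.comp ((ContinuousMap.id X).prodMk (ContinuousMap.const X e))).Homotopic
      (ContinuousMap.id X)

/-- The reduced projective class group of a ring. -/
abbrev ReducedK0 (R : Type) [Ring R] : Type 1 :=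
  K0 R ⧸ AddSubgroup.zmultiples (K0.cls R R)

/-- A bounded chain complex of finitely generated projective modules. -/
structure FiniteProjectiveComplex (R : Type) [Ring R] where
  /-- the chain complex -/
  complex : ChainComplex (ModuleCat.{0} R) ℕ
  finite : ∀ n, Module.Finite R (complex.X n)
  projective : ∀ n, Module.Projective R (complex.X n)
  /-- a degree from which on the modules vanish -/
  length : ℕ
  bounded : ∀ n, length ≤ n → Subsingleton (complex.X n)

attribute [instance] FiniteProjectiveComplex.finite FiniteProjectiveComplex.projective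

/-- The Euler class `∑_n (-1)^n [P_n]` in the reduced projective class group. -/
noncomputable def eulerClass {R : Type} [Ring R] (P : FiniteProjectiveComplex R) : ReducedK0 R :=
  ∑ n ∈ Finset.range P.length,
    (-1 : ℤ)^n • (QuotientAddGroup.mk (K0.cls R (P.complex.X n)) : ReducedK0 R)

lemma eulerClass_eq_zero_iff {R : Type} [Ring R] (P : FiniteProjectiveComplex R) :
    eulerClass P = 0 ↔ ∑ n ∈ Finset.range P.length, (-1 : ℤ)^n • K0.cls R (P.complex.X n) ∈
      AddSubgroup.zmultiples (K0.cls R R) := by
  rw [← QuotientAddGroup.eq_zero_iff, eulerClass]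
  have h : ((∑ n ∈ Finset.range P.length, (-1 : ℤ)^n • K0.cls R (P.complex.X n) : K0 R) :
      ReducedK0 R) = ∑ n ∈ Finset.range P.length,
        (-1 : ℤ)^n • ((K0.cls R (P.complex.X n) : K0 R) : ReducedK0 R) := by
    rw [← QuotientAddGroup.mk'_apply, map_sum]
    refine Finset.sum_congr rfl (fun n _ => ?_)
    rw [map_zsmul]
    rfl
  rw [h]

/-- For an H-space with cyclic fundamental group of order `q ^ k` or `2 * q ^ k` the Wall
finiteness obstruction vanishes. -/
theorem result {X E G : Type} [TopologicalSpace X] [TopologicalSpace E]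
    [SimplyConnectedSpace E] [Group G] [MulAction G E] [ContinuousConstSMul G E] {p : E → X}
    (hp : IsQuotientCoveringMap p G) (e : X) (hX : IsHSpace X e)
    (hcyc : IsCyclic (FundamentalGroup X e))
    (hcard : ∃ q k : ℕ, q.Prime ∧ (Nat.card (FundamentalGroup X e) = q ^ k ∨
      Nat.card (FundamentalGroup X e) = 2 * q ^ k))
    (P : FiniteProjectiveComplex (MonoidAlgebra ℤ G))
    (f : HomotopyEquiv P.complex (eqChains G E)) : eulerClass P = 0 := by
  rw [eulerClass_eq_zero_iff]
  obtain ⟨y₀, hy₀⟩ := hp.surjective e
  let φ : FundamentalGroup X e ≃* Gᵐᵒᵖ := hp.fundamentalGroupEquiv ⟨y₀, hy₀⟩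
  have hcard' : Nat.card G = Nat.card (FundamentalGroup X e) :=
    (Nat.card_congr (φ.toEquiv.trans MulOpposite.opEquiv.symm)).symm
  obtain ⟨c, hc⟩ := hcyc
  have hgen : ∀ y : G, y ∈ Subgroup.zpowers (φ c).unop := by
    intro y
    obtain ⟨n, hn⟩ := hc (φ.symm (MulOpposite.op y))
    refine ⟨n, ?_⟩
    have h1 := congrArg (fun z => (φ z).unop) hn
    simpa using h1
  have hcycG : IsCyclic G := ⟨_, hgen⟩
  let _ : CommGroup G := IsCyclic.commGroup
  have hfin : Finite G := by
    apply Nat.finite_of_card_ne_zero
    rw [hcard']
    obtain ⟨q, k, hq, h | h⟩ := hcard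
    · rw [h]
      exact pow_ne_zero _ hq.ne_zero
    · rw [h]
      exact mul_ne_zero two_ne_zero (pow_ne_zero _ hq.ne_zero)
  obtain ⟨μ, hl, hr⟩ := hX
  obtain ⟨h⟩ := exists_nullHomotopy hp μ e hl hr (φ c).unop P.complex f
  exact euler_complex (φ c).unop hgen (by rw [hcard']; exact hcard) P.complex P.length P.bounded h

end Pool.Agent.Results.MP_181146_gt.CyclicPrimePower
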